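import Pool.Agent.Results.MP_97f789_ag.RandomOrbits
import Pool.Agent.U569.APL.ExtA

/-!
# MP_97f789_ag: the Tate conjecture at 2 in the family of all elliptic surfaces with a section of order two, over all number
# fields at the same time, for coefficients formed from arbitrary sets

The surfaces are those of the starting result `RandomOrbits`: `K` is a number field, `ω` a basis of its ring of integers,
`2 m ≤ N`, `N ≥ 5`; the coordinates of the coefficients of two polynomials `a`, `b` of degree at most `m` and `N` over the
ring of integers form a vector `c` of integers, and `E : y² = x (x² + a x + b)`. The pair `(a, b)` is good over a finite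
extension field `k'` of `K` (`GoodOver`) if `b` and `a² - 4 b` are irreducible of degree `N` over `k'`, and for EVERY
extension field `L` of `k'` such that for each element of `L` which is algebraic over `k'` the Galois group of its minimal
polynomial over `k'` is solvable (for example `L = k'`) and for EVERY constant `e ≠ 0` of `L` the twist
`E_e : y² = x (x² + e a x + e² b)` over `L(t)` has the following properties: the Tate conjecture for divisors at the prime 2
holds; every point of `E_e(L(t))` is the sum of a point of order at most two and the double of a point; and the classes of
2-power order in `H¹(L(t), E_e)` which are trivial over the completions of `L(t)` at all finite places are zero.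

Let a sequence (`j = 0, 1, 2, …`) of families of vectors of coordinates (`R` of them) be given. The vectors of the `j`-th
family are `c₀ + y`, `c₀` an arbitrary integral vector (depending on `j`, of any size) and `y` one of the following vectors
(represented by `0, …, q - 1`):

* `y` in any family of vectors modulo some `q` (depending on `j`), whose nontrivial Fourier coefficients are at most
  `1 / (Z (42 + 3 log q) ^ R)`, where `Z → ∞`, `Z ≤ q`;
* `β(x, z) + u(x) + w(z)` modulo a prime `P → ∞`, where `β : k ^ m × k ^ n → k ^ R` is bilinear, the nontrivial
  combinations of its coordinates have rank at least `ρ`, `x` and `z` are in ARBITRARY sets `E` and `F` with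
  `|E| |F| ≥ P ^ (m + n - ρ + δ)`, `u` and `w` are arbitrary functions (for `δ > 0` fixed);
* the same for `β(x, z) = x z`, `x` and `z` in ARBITRARY subsets of the field of `P ^ R` elements,
  `|E| |F| ≥ P ^ (R + δ)`;
* polynomials in several variables of degree at most `P ^ (δ / 4)`, all nontrivial combinations of which have a monomial
  with at least two variables, plus arbitrary functions of the single variables, on products of ARBITRARY sets of at
  least `P ^ (1 / 2 + δ)` residues; for example all coefficients are products of different sets of at least two of
  `k` residues `a_1, …, a_k` from an arbitrary set;
* polynomials in one variable of degree at most `P ^ (δ / 4)`, no nontrivial combination of which is constant, on any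
  subgroup of the multiplicative group modulo `P` with at least `P ^ (1 / 2 + δ)` elements.

**Theorem.** There are exceptions `B j`, `|B j| = o(size)`, such that for ALL finite extensions `k'` of `K` in an algebraic
closure, for large `j`, the pairs `(a, b)` of all the vectors of the `j`-th family outside of `B j` are good over `k'`.

New: the families of vectors. The exceptional sets are pronull by the starting result; few members of the families are in
such a set by the theorem of the starting library `N384.VF` on vectors of residues; the estimates of the Fourier
coefficients on arbitrary sets are in `U569/APL`.
-/

set_option autoImplicit false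

namespace Pool.Agent.Results.MP_97f789_ag.ArbitrarySets

open NumberField Filter
open Pool.Agent.N24.RW (ProNull)
open Pool.Agent.Results.MP_97f789_ag.RandomOrbits (Idx GoodOver)
open Pool.Agent.U569.APL

/-- **The Tate conjecture at 2 for elliptic surfaces with coefficients formed from arbitrary sets.** -/
theorem result {K : Type} [Field K] [NumberField K] {J : Type} [Fintype J] [DecidableEq J]
    (ω : Module.Basis J ℤ (𝓞 K)) {m N : ℕ} (hmN : 2 * m ≤ N) (hN : 5 ≤ N) :
    (∀ (τ : ℕ → Type) (s : ∀ j, Finset (τ j)) (v : ∀ j, τ j → Idx m N J → ℤ), FlatFamilies s v →
      ∃ B : ∀ j, Finset (τ j), Small s B ∧
        ∀ E : IntermediateField K (AlgebraicClosure K), FiniteDimensional K E →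
          Outside s B v fun c => GoodOver ω E c) ∧
    Examples (Idx m N J) := by
  classical
  refine ⟨fun τ s v hs => ?_, examples _⟩
  obtain ⟨B, hB, h⟩ := flat_ext (K := K) hs (fun _ _ => Unit) (fun _ _ _ => inferInstance)
    (fun E [Field E] [Algebra K E] _ c => GoodOver ω E c)
    (fun E [Field E] [NumberField E] [Algebra K E] _ =>
      (Pool.Agent.Results.MP_97f789_ag.RandomOrbits.result ω hmN hN).1 E)
  exact ⟨B, hB, fun E hE => h E hE ()⟩

end Pool.Agent.Results.MP_97f789_ag.ArbitrarySets
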