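import Pool.Agent.U273.FS.InvQuad

/-!
# Tate's conjecture for surfaces with an involution, from the sign and a parity at one place

Let `K` be a number field, `𝒳` a smooth projective surface over `K` with an involution `σ` which acts
trivially on `H^1` and `H^3` (for example a regular surface), and let `A` be the part of `H²(𝒳, E(1))` on which
`σ` is `-1`. Let `v` be **one place** of `K` of odd residue characteristic at which `(𝒳, σ)` has good reduction
`X` over the field of `q` elements. Let `U` be the open set of the points of `X` not fixed by `σ`, and `P₁ / P₂`
the zeta function of `U / σ`. Put `H = P₂ / P₁` modulo `2`; it is a polynomial of degree `dim A`. Suppose that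
**the sign at `v` is `-1`**: `det(Frob_v | A) = -1`. (It is the value at `v` of a quadratic character of `K`, the
discriminant character.)

**Theorem.**
1. If `(1 - T)²` does not divide `H`, then for `K` itself and **every finite extension `L` of `K` with a
   place of degree one over `v`** all the Tate classes of `𝒳_L` are `σ`-invariant, and Q1 for `𝒳_L` is equivalent
   to Q1 for the quotient `𝒳_L / σ`.
2. If every product of cyclotomic polynomials `Φ_m(q T)`, `m` odd, which divides `H` has degree at most
   one, then there is **one quadratic extension `K'` of `K`**, inert at `v` (and cut out by the action of the Galois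
   group on `H²`), such that the same is true **for every finite extension `L` of `K` which does not contain
   `K'`**, for example for all `L` of odd degree.
3. For the double planes `w² = f(x, y, z)` with smooth branch curve `B`, with `P_B` the characteristic
   polynomial of Frobenius on `H^1(B)` at `v`, one has `H = (1 - T) P_B` modulo `2`. The condition in 1. holds
   if **the number `P_B(1)` of rational points of the Jacobian of `B` over the residue field is odd**, the
   condition in 2. if no `Φ_m`, `m` odd, divides `P_B` modulo `2`.

So Q1 holds, whatever the geometric genus, for every double plane over `K` for which there is a place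
`v` with sign `-1` and such that `Jac(B)` has no rational point of order two over the residue field at `v`, and
`NS(𝒳)` has then rank one. (Let `B` be general of degree at least six. Then the Galois group acts on
`Jac(B)[2]` through the whole symplectic group, and the sign is a nontrivial character, so about one place in
five is of this kind; but a single place is enough, and the geometric Picard number of `𝒳` may be
arbitrary in 1.)

The proof. Modulo a place above `2` the polynomial `det(1 - F T | A)` is `H` (the congruence between the
numbers of fixed points, `U273/FS/AutMain`). The sign `-1` forces the eigenvalue `-q` of Frobenius on `A`: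
for a similitude `Φ` of a nondegenerate form with factor `q²` and determinant `-q ^ n` one has
`det(Φ + q) = - det(Φ + q)` (`InvMain.exists_minus`). The eigenvalue `q` of a Tate class and this one
are both `1` modulo `2`, so there is no Tate class in 1. In 2. all the Tate classes over all finite
extensions lie in the line `E y` of that eigenvalue by the cyclotomic bound (`U273/FS/TateMain`). The eigenvalue
is a simple root of the characteristic polynomial, hence `(y, y) ≠ 0`, and `G_K` acts on the line
through a quadratic character which is `-1` at `v`; its field is `K'` (`InvQuad.anti_quadratic`).

In the Lean statement the special fibre is an actual scheme with its geometric points; its cohomology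
enters through the trace formula for the compositions of powers of Frobenius and `σ` (`IsCohomology`) and
the cup product (`CupProduct`). The Galois group `G` of `K` acts on the same space `H²` (`GaloisAction`; smooth and
proper base change), with a Frobenius element `F`. The finite extensions `L` are the subgroups of finite
index.

Earlier work. The sign is used by Elsenhans and Jahnel and by Costa, Elsenhans and Jahnel for the jumps of
Picard numbers of reductions; van Luijk's method bounds Picard numbers by the full characteristic
polynomial of Frobenius. The sibling `TateClassesModP` (MP_89bcae_ag) has the cyclotomic bound for all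
automorphisms of prime power order, and gets Q1 from it only when a divisor is moved; there is no sign and
no form there. Here no divisor is needed.
-/

set_option autoImplicit false

open CategoryTheory AlgebraicGeometry Polynomial

namespace Pool.Agent.Results.MP_97f789_ag.InvolutionsFromOnePlace

open Pool.Agent.U273.FS

/-- **The sign and the parity at one place.** -/
theorem result {κ : Type} [Field κ] [Fintype κ] {E : Type} [Field E] [CharZero E] [IsAlgClosed E]
    (hq : ¬ 2 ∣ Fintype.card κ) {X : Scheme.{0}} (π : X ⟶ Spec (CommRingCat.of κ)) [IsProper π]
    (σ : X ⟶ X) (hσ : σ ≫ π = π) (hord : power σ 2 = 𝟙 X) (D : CohomologyGroups E)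
    (hD : D.IsCohomology π σ hσ 2) (htop : D.top = 4) (htriv : TrivialOutsideTwo D 1)
    (P₁ P₂ : ℤ[X]) (hP : HasQuotientZeta E π σ hσ 1 2 P₁ P₂) (H : (ZMod 2)[X])
    (hH : IsQuotientMod 2 H P₁ P₂) (C : CupProduct D (Fintype.card κ))
    (hs : HasSignMinusOne D (Fintype.card κ)) {G : Type} [Group G]
    (S : GaloisAction D (Fintype.card κ) G) (hS : S.Preserves C) :
    (¬ HasDoubleRoot H → S.ReducesInDegreeOne) ∧
    (CyclotomicDegreeLE 2 (Fintype.card κ) H 1 → ∃ V : Subgroup G, S.ReducesOutside V) ∧
    (∀ P : ℤ[X], IsZetaOfPlaneComplement (Fintype.card κ) P₁ P₂ P →
      (IsOddAtOne P → ¬ HasDoubleRoot H) ∧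
      (NoCyclotomicFactor 2 P → CyclotomicDegreeLE 2 (Fintype.card κ) H 1)) := by
  refine ⟨?_, ?_, ?_⟩
  · intro hH2 U hU
    refine reduces (hD.order 2) S U 1 hU fun x hx hxq => ?_
    refine anti_base hq π σ hσ hord D hD (by omega) htriv P₁ P₂ hP H hH C hs hH2 x hx ?_
    rwa [pow_one, pow_one] at hxq
  · intro hb
    obtain ⟨y, hyA, hy0, hyq, hyy, hline⟩ :=
      anti_line hq π σ hσ hord D hD (by omega) htriv P₁ P₂ hP H hH C hs hb
    exact anti_quadratic Fintype.card_ne_zero (hD.order 2) C hs S hS hyA hy0 hyq hyy hline
  · rintro P ⟨rfl, rfl⟩
    refine ⟨fun hodd => planes_two hq P hodd H hH, fun hP => planes_cyc Nat.prime_two ?_ P hP H hH⟩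
    rcases Nat.mod_two_eq_zero_or_one (Fintype.card κ) with h | h
    · exact absurd (Nat.dvd_of_mod_eq_zero h) hq
    · rw [← ZMod.natCast_mod, h]
      rfl

end Pool.Agent.Results.MP_97f789_ag.InvolutionsFromOnePlace
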