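import Pool.Agent.Results.MP_97f789_ag.RandomOrbits
import Pool.Agent.U125.NO.Seq

/-!
# The Tate conjecture at 2 along normal orbits in the family of all elliptic surfaces with a section of
# order two, over all number fields at the same time

Let `K` be a number field, `ω` a basis of its ring of integers. Every elliptic curve over `K(t)` with a
rational point of order two has an equation `E : y² = x (x² + a x + b)` with polynomials `a`, `b`; we consider
`a` of degree at most `m` and `b` of degree at most `N`, with integral coefficients, where `2 m ≤ N` and
`N ≥ 5`. The coordinates of the coefficients form a vector `c` of `r` integers. The pair `(a, b)` is good over a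
finite extension field `k'` of `K` (`GoodOver`, starting result `RandomOrbits`) if `b` and `a² - 4 b` are
irreducible of degree `N` over `k'`, and if for every extension field `L` of `k'` in which the elements algebraic
over `k'` have solvable minimal polynomials, and every constant `e ≠ 0` of `L`, the twist
`E_e : y² = x (x² + e a x + e² b)` satisfies the Tate conjecture for divisors at the prime 2, every point of
`E_e(L(t))` is the sum of a point of order at most two and the double of a point (so `E_e(L(t))` is finite if it is
finitely generated), and the classes of 2-power order in `H¹(L(t), E_e)` that are trivial over the completions of
`L(t)` at all finite places are zero.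

**Theorem.** Let `c_0, c_1, …` be ANY normal orbit of vectors in `ℤ^r` (`NormalOrbit`). There is ONE set `S` of
natural numbers of density zero such that for ALL finite extensions `k'` of `K` in an algebraic closure the
elliptic surface with the coefficient vector `c_n` is good over `k'` for all but finitely many `n ∉ S`.

The starting result has almost every random orbit of a thin group, and for each `k'` its own set of times of
density zero.

A normal orbit is the orbit of an integral vector under a finite family of integral affine maps along ANY
normal sequence of indices, where the family is wide: for all `q` prime to some `q₀` the maps are bijective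
modulo `q`, and the vector can be moved to at least the proportion `ε > 0`, not depending on `q`, of all
vectors modulo `q`.

Examples: (1) the vectors `(⌊g ^ n x_i⌋)_i` for ANY vector `x` of real numbers which is normal to the base
`g ≥ 2`: so the coefficients of the surfaces are read off from the expansions of the numbers `x_i`, one surface
for every digit, and the surfaces, up to scaling, converge; (2) the orbit of any vector `v ≠ 0` along ANY normal
word in matrices which generate the special linear group modulo all `q` prime to some `q₀` (generators of a
thin group); (3) vectors of integers whose digits are chosen from a restricted set of vectors.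

Proof. For each `k'` the bad vectors form a pronull set (starting result `RandomOrbits`, theorem `pro`), and normal
orbits visit a pronull set only at times of density zero: modulo `q` they are orbits along a normal sequence in a
finite transitive system of permutations, and these are equidistributed (engine `Pool.Agent.U125.NO`). There are
only countably many finite extensions, and a diagonal argument gives one exceptional set of times.
-/

set_option autoImplicit false

namespace Pool.Agent.Results.MP_97f789_ag.NormalSequences

open NumberField Filter Topology
open Pool.Agent.U125.NO (NormalOrbit Nul Examples examples)
open Pool.Agent.Results.MP_97f789_ag.RandomOrbits (GoodOver Idx)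

/-- **The Tate conjecture at 2 along normal orbits.** `Nul S`: the set `S` of natural numbers has natural
density zero. -/
theorem result {K : Type} [Field K] [NumberField K] {J : Type} [Fintype J] [DecidableEq J]
    (ω : Module.Basis J ℤ (𝓞 K)) {m N : ℕ} (hmN : 2 * m ≤ N) (hN : 5 ≤ N) :
    (∀ c : ℕ → Idx m N J → ℤ, NormalOrbit c → ∃ S : Set ℕ, Nul S ∧
      ∀ k' : IntermediateField K (AlgebraicClosure K), FiniteDimensional K k' →
        {n : ℕ | n ∉ S ∧ ¬ GoodOver ω k' (c n)}.Finite) ∧
    Examples (Idx m N J) := by
  refine ⟨fun c hc => ?_, examples _⟩
  have := Pool.Agent.N140.RO.countable_algClosure K
  obtain ⟨S, hS, hS2⟩ := hc.avoids.diag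
    (K := {F : Finset (AlgebraicClosure K) //
      FiniteDimensional K (IntermediateField.adjoin K (F : Set (AlgebraicClosure K)))})
    (fun F v => ¬ GoodOver ω (IntermediateField.adjoin K (F.1 : Set (AlgebraicClosure K))) v)
    (fun F => by
      have hfd := F.2
      have hnf : NumberField (IntermediateField.adjoin K (F.1 : Set (AlgebraicClosure K))) := by
        have : CharZero (IntermediateField.adjoin K (F.1 : Set (AlgebraicClosure K))) :=
          charZero_of_injective_algebraMap (algebraMap K _).injective
        have : FiniteDimensional ℚ (IntermediateField.adjoin K (F.1 : Set (AlgebraicClosure K))) :=
          FiniteDimensional.trans ℚ K _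
        exact ⟨⟩
      exact Pool.Agent.Results.MP_97f789_ag.RandomOrbits.pro ω hmN hN _)
  refine ⟨S, hS, fun k' hk' => ?_⟩
  obtain ⟨F, hF⟩ : k'.FG := by
    refine IntermediateField.fg_of_fg_toSubalgebra k' ?_
    rw [Subalgebra.fg_iff_finiteType]
    have : FiniteDimensional K k'.toSubalgebra := hk'
    infer_instance
  subst hF
  exact hS2 ⟨F, hk'⟩

end Pool.Agent.Results.MP_97f789_ag.NormalSequences
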